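import Pool.Agent.X35.KM.Int
import Pool.Agent.TH869.SQ.Cs

/-!
# The Kloosterman angles at `s` consecutive primes, for almost all members of every polynomial family of integers: all boxes
with square-root error against the finite-field model, and all patterns of signs for almost all integers of any interval
-/

set_option autoImplicit false

namespace Pool.Agent.Results.MP_6ea630_nt.ConsecutivePrimes

open Finset Polynomial

/-- The Kloosterman sum `S(a, 1; p)`. -/
noncomputable def kloosterman (p : ℕ) (a : ℤ) : ℝ :=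
  ∑ x ∈ Ico 1 p, Real.cos (2 * Real.pi * ((((a : ZMod p) * (x : ZMod p) + (x : ZMod p)⁻¹).val : ℕ) : ℝ) / (p : ℝ))

/-- The number `θ / π` in `[0, 1]`, where `θ` is the angle with `2 p ^ (1 / 2) cos θ = S(a, 1; p)`, and `1 / 2` if `p ∣ a`. -/
noncomputable def angle (p : ℕ) (a : ℤ) : ℝ :=
  if (p : ℤ) ∣ a then 1 / 2 else Real.arccos (kloosterman p a / (2 * Real.sqrt p)) / Real.pi

open Classical in
/-- The number of the `k < K` such that the angles of `a` at the `s` consecutive primes with the numbers `k, ..., k + s - 1` (the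
primes are numbered from `0`) are in `I 0, ..., I (s - 1)`. -/
noncomputable def boxCount {s : ℕ} (a : ℤ) (I : Fin s → Set ℝ) (K : ℕ) : ℕ :=
  ((range K).filter (fun k => ∀ i : Fin s, angle (Nat.nth Nat.Prime (k + i)) a ∈ I i)).card

open Classical in
/-- The proportion of the residues `t` modulo `p` for which the angle of `f(t)` at `p` is in `S`. -/
noncomputable def proportion (f : ℤ[X]) (p : ℕ) (S : Set ℝ) : ℝ :=
  ((range p).filter (fun t : ℕ => angle p (f.eval (t : ℤ)) ∈ S)).card / p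

/-- The expected number: the sum over `k < K` of the product of the proportions at the `s` primes. -/
noncomputable def boxModel {s : ℕ} (f : ℤ[X]) (I : Fin s → Set ℝ) (K : ℕ) : ℝ :=
  ∑ k ∈ range K, ∏ i : Fin s, proportion f (Nat.nth Nat.Prime (k + i)) (I i)

open Classical in
/-- The number of the `k < K` such that for all `i < s` the prime `p` with the number `k + i` does not divide `a` and
`σ i S(a, 1; p) > η p ^ (1 / 2)`. -/
noncomputable def signCount {s : ℕ} (σ : Fin s → ℝ) (η : ℝ) (a : ℤ) (K : ℕ) : ℕ :=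
  ((range K).filter (fun k => ∀ i : Fin s, ¬ (Nat.nth Nat.Prime (k + i) : ℤ) ∣ a ∧
    η * Real.sqrt (Nat.nth Nat.Prime (k + i)) < σ i * kloosterman (Nat.nth Nat.Prime (k + i)) a)).card

theorem kl_congr (p : ℕ) {a b : ℤ} (h : (p : ℤ) ∣ a - b) : kloosterman p a = kloosterman p b := by
  unfold kloosterman
  have h1 : (a : ZMod p) = (b : ZMod p) := by
    rw [← sub_eq_zero, ← Int.cast_sub]
    exact (ZMod.intCast_zmod_eq_zero_iff_dvd _ p).2 h
  rw [h1]

theorem angle_congr (p : ℕ) {a b : ℤ} (h : (p : ℤ) ∣ a - b) : angle p a = angle p b := by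
  unfold angle
  rw [kl_congr p h]
  have h2 := dvd_iff_dvd_of_dvd_sub h
  by_cases h3 : (p : ℤ) ∣ a
  · rw [if_pos h3, if_pos (h2.mp h3)]
  · rw [if_neg h3, if_neg (fun h4 => h3 (h2.mpr h4))]

theorem eval_per (f : ℤ[X]) (p n : ℕ) : (p : ℤ) ∣ f.eval ((n + p : ℕ) : ℤ) - f.eval (n : ℤ) := by
  have e : ((n + p : ℕ) : ℤ) - (n : ℤ) = p := by push_cast; ring
  have := f.sub_dvd_eval_sub ((n + p : ℕ) : ℤ) (n : ℤ)
  rwa [e] at this

/-- the interval of the angles belonging to a sign -/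
def sgn (σ η : ℝ) : Set ℝ := {u : ℝ | 0 ≤ u ∧ u ≤ 1 ∧ η < σ * (2 * Real.cos (Real.pi * u))}

theorem sgn_ord {σ : ℝ} (hσ : σ = 1 ∨ σ = -1) (η : ℝ) : (sgn σ η).OrdConnected := by
  have hpi := Real.pi_pos
  constructor
  rintro u ⟨hu0, hu1, hu2⟩ w ⟨hw0, hw1, hw2⟩ x ⟨hx1, hx2⟩
  have h1 : Real.cos (Real.pi * x) ≤ Real.cos (Real.pi * u) :=
    Real.cos_le_cos_of_nonneg_of_le_pi (by positivity) (by nlinarith) (by nlinarith)
  have h2 : Real.cos (Real.pi * w) ≤ Real.cos (Real.pi * x) :=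
    Real.cos_le_cos_of_nonneg_of_le_pi (mul_nonneg hpi.le (hu0.trans hx1)) (by nlinarith) (by nlinarith)
  refine ⟨hu0.trans hx1, hx2.trans hw1, ?_⟩
  rcases hσ with h | h
  · rw [h] at hw2 ⊢
    linarith
  · rw [h] at hu2 ⊢
    linarith

theorem mem_sgn {σ η : ℝ} (hη : 0 ≤ η) {p : ℕ} (hp : p.Prime) (a : ℤ) :
    angle p a ∈ sgn σ η ↔ ¬ (p : ℤ) ∣ a ∧ η * Real.sqrt p < σ * kloosterman p a := by
  have hpi := Real.pi_pos
  have : Fact p.Prime := ⟨hp⟩
  have hs : 0 < Real.sqrt p := Real.sqrt_pos.2 (by exact_mod_cast hp.pos)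
  unfold angle
  by_cases h : (p : ℤ) ∣ a
  · rw [if_pos h]
    constructor
    · rintro ⟨_, _, h1⟩
      have : Real.pi * (1 / 2) = Real.pi / 2 := by ring
      rw [this, Real.cos_pi_div_two] at h1
      norm_num at h1
      linarith
    · rintro ⟨h1, _⟩
      exact absurd h h1
  · rw [if_neg h]
    have h1 : Real.pi * (Real.arccos (kloosterman p a / (2 * Real.sqrt p)) / Real.pi) =
        Real.arccos (kloosterman p a / (2 * Real.sqrt p)) := by field_simp
    have h2 : Real.cos (Real.arccos (kloosterman p a / (2 * Real.sqrt p))) = kloosterman p a / (2 * Real.sqrt p) := by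
      have h3 := Pool.Agent.X35.KM.cos_angle (p := p) a
      have h4 := abs_le.1 (Pool.Agent.X35.KM.xx_le (p := p) (a : ZMod p))
      unfold Pool.Agent.X35.KM.xx at h4
      rw [← Pool.Agent.X35.KM.kls_eq] at h4
      exact Real.cos_arccos h4.1 h4.2
    have h5 : σ * (2 * (kloosterman p a / (2 * Real.sqrt p))) = (σ * kloosterman p a) / Real.sqrt p := by
      field_simp
    have h6 : (0 ≤ Real.arccos (kloosterman p a / (2 * Real.sqrt p)) / Real.pi) := div_nonneg (Real.arccos_nonneg _) hpi.le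
    have h7 : (Real.arccos (kloosterman p a / (2 * Real.sqrt p)) / Real.pi) ≤ 1 := by
      rw [div_le_one hpi]
      exact Real.arccos_le_pi _
    unfold sgn
    simp only [Set.mem_ofPred_eq, h6, h7, true_and, h1, h2, h5, h, not_false_eq_true]
    rw [lt_div_iff₀ hs]

open Classical in
theorem prop_sgn {σ η : ℝ} (hσ : σ = 1 ∨ σ = -1) (hη : 0 ≤ η) {p : ℕ} (hp : p.Prime) (M : ℤ) :
    1 / 4 - η - 1 / Real.sqrt p - 1 / p ≤ proportion (X + C M) p (sgn σ η) := by
  have : Fact p.Prime := ⟨hp⟩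
  have : NeZero p := ⟨hp.ne_zero⟩
  have hp0 : (0 : ℝ) < p := by exact_mod_cast hp.pos
  have hσ2 : σ ^ 2 = 1 := by rcases hσ with h | h <;> rw [h] <;> norm_num
  have h1 : (1 / 4 - η - 1 / Real.sqrt p) * p ≤ ∑ a : ZMod p, if η * Real.sqrt p < σ * Pool.Agent.TH375.KL.rk p a 1 then (1 : ℝ) else 0 := by
    have h := Pool.Agent.TH375.KL.sign_mean (p := p) hσ2 hη
    convert h
  unfold proportion
  rw [le_div_iff₀ hp0]
  have h2 : (∑ a : ZMod p, if η * Real.sqrt p < σ * Pool.Agent.TH375.KL.rk p a 1 then (1 : ℝ) else 0) ≤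
      (((range p).filter (fun t : ℕ => angle p ((X + C M : ℤ[X]).eval (t : ℤ)) ∈ sgn σ η)).card : ℝ) + 1 := by
    rw [← sum_filter, sum_const, nsmul_eq_mul, mul_one]
    have h3 : ((univ : Finset (ZMod p)).filter (fun a => η * Real.sqrt p < σ * Pool.Agent.TH375.KL.rk p a 1)).card ≤
        (insert (0 : ZMod p) (((range p).filter (fun t : ℕ => angle p ((X + C M : ℤ[X]).eval (t : ℤ)) ∈ sgn σ η)).image
          (fun t : ℕ => ((t : ZMod p) + (M : ZMod p))))).card := by
      apply card_le_card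
      intro a ha
      rw [mem_filter] at ha
      rw [mem_insert]
      by_cases h0 : a = 0
      · left
        exact h0
      · right
        rw [mem_image]
        refine ⟨(a - (M : ZMod p)).val, ?_, ?_⟩
        · rw [mem_filter, mem_range]
          refine ⟨ZMod.val_lt _, ?_⟩
          have e : (((X + C M : ℤ[X]).eval (((a - (M : ZMod p)).val : ℕ) : ℤ) : ℤ) : ZMod p) = a := by
            simp
          rw [mem_sgn hη hp]
          refine ⟨?_, ?_⟩
          · intro h4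
            apply h0
            rw [← e]
            exact (ZMod.intCast_zmod_eq_zero_iff_dvd _ p).2 h4
          · have h5 := Pool.Agent.X35.KM.kls_eq (p := p) ((X + C M : ℤ[X]).eval (((a - (M : ZMod p)).val : ℕ) : ℤ))
            rw [e] at h5
            have h6 : kloosterman p ((X + C M : ℤ[X]).eval (((a - (M : ZMod p)).val : ℕ) : ℤ)) =
                Pool.Agent.TH375.KL.rk p a 1 := h5
            rw [h6]
            exact ha.2
        · show (((a - (M : ZMod p)).val : ℕ) : ZMod p) + (M : ZMod p) = a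
          rw [ZMod.natCast_zmod_val]
          ring
    have h4 := h3.trans ((card_insert_le _ _).trans (Nat.add_le_add_right card_image_le 1))
    exact_mod_cast h4
  have h5 : (1 / 4 - η - 1 / Real.sqrt p - 1 / p) * (p : ℝ) = (1 / 4 - η - 1 / Real.sqrt p) * p - 1 := by
    field_simp
  rw [h5]
  linarith [h1.trans h2]

theorem proportion_nonneg (f : ℤ[X]) (p : ℕ) (S : Set ℝ) : 0 ≤ proportion f p S := by
  unfold proportion
  positivity

theorem pow_diff (x y : ℝ) (hy : 0 ≤ y) (hyx : y ≤ x) (hx : x ≤ 1) (s : ℕ) : x ^ s - s * (x - y) ≤ y ^ s := by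
  induction s with
  | zero => simp
  | succ s ih =>
    have h1 : y ^ s ≤ 1 := pow_le_one₀ hy (hyx.trans hx)
    have h2 : 0 ≤ y ^ s := by positivity
    have h6 : (x ^ s - s * (x - y)) * x ≤ y ^ s * x := mul_le_mul_of_nonneg_right ih (hy.trans hyx)
    have h7 : (s : ℝ) * (x - y) * x ≤ s * (x - y) := by
      have : 0 ≤ (s : ℝ) * (x - y) := mul_nonneg (Nat.cast_nonneg _) (by linarith)
      nlinarith
    have h8 : y ^ s * (x - y) ≤ x - y := by nlinarith
    have h5 : y ^ (s + 1) = y ^ s * x - y ^ s * (x - y) := by ring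
    have h9 : x ^ (s + 1) = x ^ s * x := pow_succ x s
    push_cast
    rw [h5, h9]
    linarith

theorem sum_inv_sqrt (K : ℕ) : ∑ k ∈ range K, 2 / Real.sqrt ((k : ℝ) + 1) ≤ 4 * Real.sqrt K := by
  induction K with
  | zero => simp
  | succ K ih =>
    rw [sum_range_succ]
    push_cast
    have h1 : 0 < Real.sqrt ((K : ℝ) + 1) := Real.sqrt_pos.2 (by positivity)
    have h2 : 0 ≤ Real.sqrt (K : ℝ) := Real.sqrt_nonneg _
    have h3 : Real.sqrt ((K : ℝ) + 1) ^ 2 = K + 1 := Real.sq_sqrt (by positivity)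
    have h4 : Real.sqrt (K : ℝ) ^ 2 = K := Real.sq_sqrt (by positivity)
    have h5 : Real.sqrt (K : ℝ) ≤ Real.sqrt ((K : ℝ) + 1) := Real.sqrt_le_sqrt (by linarith)
    have h6 : 2 / Real.sqrt ((K : ℝ) + 1) ≤ 4 * (Real.sqrt ((K : ℝ) + 1) - Real.sqrt K) := by
      rw [div_le_iff₀ h1]
      nlinarith
    linarith

theorem model_sgn {s : ℕ} {σ : Fin s → ℝ} (hσ : ∀ i, σ i = 1 ∨ σ i = -1) {η : ℝ} (hη : 0 ≤ η) (hη1 : η ≤ 1 / 4) (M : ℤ) (K : ℕ) :
    (1 / 4 - η) ^ s * K - 4 * s * Real.sqrt K ≤ boxModel (X + C M) (fun i => sgn (σ i) η) K := by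
  unfold boxModel
  have h1 : ∀ k ∈ range K, (1 / 4 - η) ^ s - s * (2 / Real.sqrt ((k : ℝ) + 1)) ≤
      ∏ i : Fin s, proportion (X + C M) (Nat.nth Nat.Prime (k + i)) (sgn (σ i) η) := by
    intro k _
    set e : ℝ := 2 / Real.sqrt ((k : ℝ) + 1) with he
    have hk1 : 1 ≤ Real.sqrt ((k : ℝ) + 1) := Real.one_le_sqrt.2 (by
      have : (0 : ℝ) ≤ k := Nat.cast_nonneg k
      linarith)
    have he0 : 0 < e := by positivity
    have h2 : ∀ i : Fin s, max 0 (1 / 4 - η - e) ≤ proportion (X + C M) (Nat.nth Nat.Prime (k + i)) (sgn (σ i) η) := by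
      intro i
      apply max_le (proportion_nonneg _ _ _)
      have hp : (Nat.nth Nat.Prime (k + i)).Prime := Nat.prime_nth_prime _
      refine le_trans ?_ (prop_sgn (hσ i) hη hp M)
      have hkp : (k : ℝ) + 1 ≤ (Nat.nth Nat.Prime (k + i) : ℝ) := by
        have h3 : k + i + 2 ≤ Nat.nth Nat.Prime (k + i) := Nat.add_two_le_nth_prime _
        have h4 : k + 1 ≤ Nat.nth Nat.Prime (k + i) := by omega
        exact_mod_cast h4
      have h5 : Real.sqrt ((k : ℝ) + 1) ≤ Real.sqrt (Nat.nth Nat.Prime (k + i)) := Real.sqrt_le_sqrt hkp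
      have h6 : 1 / Real.sqrt (Nat.nth Nat.Prime (k + i)) ≤ 1 / Real.sqrt ((k : ℝ) + 1) :=
        one_div_le_one_div_of_le (by linarith) h5
      have h7 : Real.sqrt ((k : ℝ) + 1) ≤ Nat.nth Nat.Prime (k + i) := by
        refine le_trans ?_ hkp
        have h8 : Real.sqrt ((k : ℝ) + 1) ^ 2 = k + 1 := Real.sq_sqrt (by positivity)
        nlinarith
      have h9 : 1 / (Nat.nth Nat.Prime (k + i) : ℝ) ≤ 1 / Real.sqrt ((k : ℝ) + 1) :=
        one_div_le_one_div_of_le (by linarith) h7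
      have h10 : e = 1 / Real.sqrt ((k : ℝ) + 1) + 1 / Real.sqrt ((k : ℝ) + 1) := by
        rw [he]
        ring
      linarith
    have h3 : (max 0 (1 / 4 - η - e)) ^ s ≤ ∏ i : Fin s, proportion (X + C M) (Nat.nth Nat.Prime (k + i)) (sgn (σ i) η) := by
      calc (max 0 (1 / 4 - η - e)) ^ s = ∏ _i : Fin s, max 0 (1 / 4 - η - e) := by
            rw [prod_const, card_univ, Fintype.card_fin]
        _ ≤ _ := prod_le_prod (fun i _ => le_max_left _ _) (fun i _ => h2 i)
    refine le_trans ?_ h3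
    have h4 := pow_diff (1 / 4 - η) (max 0 (1 / 4 - η - e)) (le_max_left _ _) (max_le (by linarith) (by linarith))
      (by linarith) s
    have h5 : 1 / 4 - η - max 0 (1 / 4 - η - e) ≤ e := by
      have := le_max_right 0 (1 / 4 - η - e)
      linarith
    have h6 : (s : ℝ) * (1 / 4 - η - max 0 (1 / 4 - η - e)) ≤ s * e :=
      mul_le_mul_of_nonneg_left h5 (Nat.cast_nonneg s)
    linarith
  refine le_trans ?_ (sum_le_sum h1)
  rw [sum_sub_distrib, sum_const, card_range, nsmul_eq_mul, ← mul_sum]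
  have h2 := sum_inv_sqrt K
  have h3 : (s : ℝ) * ∑ k ∈ range K, 2 / Real.sqrt ((k : ℝ) + 1) ≤ s * (4 * Real.sqrt K) :=
    mul_le_mul_of_nonneg_left h2 (Nat.cast_nonneg s)
  linarith

/-- Let `s ≥ 1` and `δ > 0`. There are `κ > 0` and `C`, depending on `s` and `δ` only, such that:

(1) for every polynomial `f ∈ ℤ[T]` and every `N ≥ 1` there is a set `E` of at most `C N ^ (1 - κ)` integers such that for every
`0 ≤ n ≤ N` outside `E`, every `K ≤ N ^ κ` and every product of `s` intervals, the number of the `k < K` such that the angles of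
`S(f(n), 1; p)` at the `s` consecutive primes with the numbers `k, ..., k + s - 1` are in the intervals differs from the expected
number by at most `C K ^ (1 / 2 + δ) (1 + log N) ^ (1 / 2)`;

(2) for every integer `M` and every `N ≥ 1` there is a set `E` of at most `C N ^ (1 - κ)` integers such that for every integer
`a = M + n`, `0 ≤ n ≤ N`, `n ∉ E`, every `K ≤ N ^ κ`, every `0 ≤ η ≤ 1 / 4` and every pattern of `s` signs `σ_i`, there are at least
`(1 / 4 - η) ^ s K - C K ^ (1 / 2 + δ) (1 + log N) ^ (1 / 2)` numbers `k < K` such that `σ_i S(a, 1; p) > η p ^ (1 / 2)` and `p ∤ a` for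
`p = p_(k + i)`, `i < s`. -/
theorem result (s : ℕ) (hs : 1 ≤ s) (δ : ℝ) (hδ : 0 < δ) :
    ∃ κ C : ℝ, 0 < κ ∧ 0 < C ∧
      (∀ (f : ℤ[X]) (N : ℕ), 1 ≤ N → ∃ E : Finset ℕ, (E.card : ℝ) ≤ C * (N : ℝ) ^ (1 - κ) ∧
        ∀ n : ℕ, n ≤ N → n ∉ E → ∀ K : ℕ, (K : ℝ) ≤ (N : ℝ) ^ κ →
          ∀ I : Fin s → Set ℝ, (∀ i, (I i).OrdConnected) →
            |(boxCount (f.eval (n : ℤ)) I K : ℝ) - boxModel f I K| ≤ C * ((K : ℝ) ^ (1 / 2 + δ) * √(1 + Real.log N))) ∧
      (∀ (M : ℤ) (N : ℕ), 1 ≤ N → ∃ E : Finset ℕ, (E.card : ℝ) ≤ C * (N : ℝ) ^ (1 - κ) ∧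
        ∀ n : ℕ, n ≤ N → n ∉ E → ∀ K : ℕ, (K : ℝ) ≤ (N : ℝ) ^ κ →
          ∀ η : ℝ, 0 ≤ η → η ≤ 1 / 4 → ∀ σ : Fin s → ℝ, (∀ i, σ i = 1 ∨ σ i = -1) →
            (1 / 4 - η) ^ s * K - C * ((K : ℝ) ^ (1 / 2 + δ) * √(1 + Real.log N)) ≤ signCount σ η (M + n) K) := by
  classical
  obtain ⟨κ, C, h1, _, h3, H⟩ := Pool.Agent.TH869.SQ.consecutive s hs δ hδ
  have hC : C ≤ C + 4 * s := by
    have : (0 : ℝ) ≤ s := Nat.cast_nonneg s
    linarith
  have hbox : ∀ (f : ℤ[X]) (N : ℕ), 1 ≤ N → ∃ E : Finset ℕ, (E.card : ℝ) ≤ C * (N : ℝ) ^ (1 - κ) ∧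
        ∀ n : ℕ, n ≤ N → n ∉ E → ∀ K : ℕ, (K : ℝ) ≤ (N : ℝ) ^ κ →
          ∀ I : Fin s → Set ℝ, (∀ i, (I i).OrdConnected) →
            |(boxCount (f.eval (n : ℤ)) I K : ℝ) - boxModel f I K| ≤ C * ((K : ℝ) ^ (1 / 2 + δ) * √(1 + Real.log N)) := by
    intro f N hN
    obtain ⟨E, hE1, hE2⟩ := H (fun p n => angle p (f.eval (n : ℤ))) (by
      intro p n
      exact angle_congr p (eval_per f p n)) N hN
    refine ⟨E, hE1, ?_⟩
    intro n hn hnE K hK I hI
    have h := hE2 n hn hnE K hK I hI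
    rw [sum_sub_distrib] at h
    have e1 : (boxCount (f.eval (n : ℤ)) I K : ℝ) = ∑ k ∈ range K,
        Pool.Agent.TH869.SQ.ind I (fun i : Fin s =>
          angle (Pool.Agent.TH869.SQ.pr (k + i)) (f.eval (n : ℤ))) := by
      unfold boxCount Pool.Agent.TH869.SQ.ind Pool.Agent.TH869.SQ.pr
      rw [sum_boole]
    have e2 : boxModel f I K = ∑ k ∈ range K, ∏ i : Fin s,
        Pool.Agent.TH869.SQ.mean (Pool.Agent.TH869.SQ.pr (k + i)) (fun t =>
          Pool.Agent.TH869.SQ.ind1 (I i)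
            (angle (Pool.Agent.TH869.SQ.pr (k + i)) (f.eval (t : ℤ)))) := by
      unfold boxModel proportion Pool.Agent.TH869.SQ.mean Pool.Agent.TH869.SQ.ind1
        Pool.Agent.TH869.SQ.pr
      refine sum_congr rfl fun k _ => prod_congr rfl fun i _ => ?_
      rw [sum_boole]
    rw [e1, e2]
    exact h
  refine ⟨κ, C + 4 * s, h1, by linarith, ?_, ?_⟩
  · intro f N hN
    obtain ⟨E, hE1, hE2⟩ := hbox f N hN
    refine ⟨E, hE1.trans (mul_le_mul_of_nonneg_right hC (by positivity)), fun n hn hnE K hK I hI => ?_⟩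
    exact (hE2 n hn hnE K hK I hI).trans (mul_le_mul_of_nonneg_right hC (by positivity))
  · intro M N hN
    obtain ⟨E, hE1, hE2⟩ := hbox (X + Polynomial.C M) N hN
    refine ⟨E, hE1.trans (mul_le_mul_of_nonneg_right hC (by positivity)), fun n hn hnE K hK η hη hη1 σ hσ => ?_⟩
    have h4 := (abs_le.1 (hE2 n hn hnE K hK (fun i => sgn (σ i) η) (fun i => sgn_ord (hσ i) η))).1
    have h5 := model_sgn hσ hη hη1 M K
    have h6 : (boxCount ((X + Polynomial.C M : ℤ[X]).eval (n : ℤ)) (fun i => sgn (σ i) η) K : ℝ) = signCount σ η (M + n) K := by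
      unfold boxCount signCount
      congr 2
      apply filter_congr
      intro k _
      have e : (X + Polynomial.C M : ℤ[X]).eval (n : ℤ) = M + n := by
        simp [add_comm]
      rw [e]
      exact forall_congr' fun i => mem_sgn hη (Nat.prime_nth_prime _) _
    rw [h6] at h4
    have hlogN : 0 ≤ Real.log N := Real.log_nonneg (by exact_mod_cast hN)
    have h7 : Real.sqrt K ≤ (K : ℝ) ^ (1 / 2 + δ) * √(1 + Real.log N) := by
      have h8 : 1 ≤ √(1 + Real.log N) := Real.one_le_sqrt.2 (by linarith)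
      have h9 : Real.sqrt K ≤ (K : ℝ) ^ (1 / 2 + δ) := by
        rcases Nat.eq_zero_or_pos K with h0 | h0
        · subst h0
          simp
          positivity
        · rw [Real.sqrt_eq_rpow]
          exact Real.rpow_le_rpow_of_exponent_le (by exact_mod_cast h0) (by linarith)
      have h10 : 0 ≤ (K : ℝ) ^ (1 / 2 + δ) := by positivity
      nlinarith
    have h11 : 4 * (s : ℝ) * Real.sqrt K ≤ 4 * s * ((K : ℝ) ^ (1 / 2 + δ) * √(1 + Real.log N)) :=
      mul_le_mul_of_nonneg_left h7 (by positivity)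
    have h12 : (C + 4 * s) * ((K : ℝ) ^ (1 / 2 + δ) * √(1 + Real.log N)) =
      C * ((K : ℝ) ^ (1 / 2 + δ) * √(1 + Real.log N)) + 4 * s * ((K : ℝ) ^ (1 / 2 + δ) * √(1 + Real.log N)) := by ring
    rw [h12]
    linarith

end Pool.Agent.Results.MP_6ea630_nt.ConsecutivePrimes
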