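import Pool.Agent.X35.KM.Int

/-!
# The first four Sato-Tate moments of the Kloosterman angles of almost all integers
-/

set_option autoImplicit false

namespace Pool.Agent.Results.MP_6ea630_nt.FirstFourMoments

open Finset Polynomial

/-- The Kloosterman sum `S(a, 1; p)`. -/
noncomputable def kloosterman (p : ℕ) (a : ℤ) : ℝ :=
  ∑ x ∈ Ico 1 p, Real.cos (2 * Real.pi * ((((a : ZMod p) * (x : ZMod p) + (x : ZMod p)⁻¹).val : ℕ) : ℝ) / (p : ℝ))

/-- The angle `θ_p(a)` in `[0, π]` with `S(a, 1; p) = 2 p ^ (1 / 2) cos θ_p(a)`. -/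
noncomputable def angle (p : ℕ) (a : ℤ) : ℝ := Real.arccos (kloosterman p a / (2 * Real.sqrt p))

/-- The sum of `P (cos θ_p(a))` over the primes `p ≤ x` which do not divide `a`. -/
noncomputable def angleSum (P : ℝ[X]) (x : ℕ) (a : ℤ) : ℝ :=
  ∑ p ∈ (range (x + 1)).filter (fun p : ℕ => p.Prime ∧ ¬ (p : ℤ) ∣ a), P.eval (Real.cos (angle p a))

/-- The mean value of `P (cos u)` for the Sato-Tate measure `(2 / π) sin ^ 2 u du` on `[0, π]`. -/
noncomputable def satoTate (P : ℝ[X]) : ℝ :=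
  2 / Real.pi * ∫ u in (0 : ℝ)..Real.pi, P.eval (Real.cos u) * Real.sin u ^ 2

/-- The integers `a` with `M < a ≤ M + N` such that for some `x` with `y ≤ x ≤ z` the sum of `P (cos θ_p(a))` over the primes
`p ≤ x` not dividing `a` differs from `π(x)` times the Sato-Tate mean value by more than `ε π(x)`. -/
def exceptional (P : ℝ[X]) (ε : ℝ) (M : ℤ) (N y z : ℕ) : Set ℤ :=
  {a : ℤ | M < a ∧ a ≤ M + N ∧ ∃ x : ℕ, y ≤ x ∧ x ≤ z ∧
    ε * Nat.primeCounting x < |angleSum P x a - satoTate P * Nat.primeCounting x|}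

/-- For every real polynomial `P` of degree at most four and every `ε > 0` there is a constant `C` such that for all
integers `M`, `N ≥ 0` and `2 ≤ y ≤ z` all but at most `C (N / π(y) + z (log z) ^ 2)` of the integers `a` in `(M, M + N]` have
the following property: for ALL `x` with `y ≤ x ≤ z` the sum of `P (cos θ_p(a))` over the primes `p ≤ x` not dividing `a`
differs from `π(x) (2 / π) ∫_0^π P (cos u) sin ^ 2 u du` by at most `ε π(x)`. -/
theorem result (P : ℝ[X]) (hP : P.natDegree ≤ 4) (ε : ℝ) (hε : 0 < ε) :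
    ∃ C : ℝ, ∀ (M : ℤ) (N y z : ℕ), 2 ≤ y → y ≤ z →
      (exceptional P ε M N y z).Finite ∧
      ((exceptional P ε M N y z).ncard : ℝ) ≤ C * (N / Nat.primeCounting y + z * Real.log z ^ 2) := by
  classical
  obtain ⟨C, hC, h⟩ := Pool.Agent.X35.KM.two_sides hP hε
  refine ⟨C, fun M N y z hy hyz => ?_⟩
  have h1 := h M N y z hy hyz
  have hsub : exceptional P ε M N y z ⊆ (((Icc 1 N).filter fun n : ℕ => ∃ x, y ≤ x ∧ x ≤ z ∧
        ε * Nat.primeCounting x < |Pool.Agent.X35.KM.hor P x (M + (n : ℤ)) -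
          Pool.Agent.X35.KM.stp P * Nat.primeCounting x|).image (fun n : ℕ => M + (n : ℤ)) : Finset ℤ) := by
    intro a ha
    obtain ⟨h2, h3, x, h4, h5, h6⟩ := ha
    rw [Finset.coe_image]
    refine ⟨(a - M).toNat, ?_, ?_⟩
    · rw [Finset.mem_coe, mem_filter, mem_Icc]
      have h7 : ((a - M).toNat : ℤ) = a - M := Int.toNat_of_nonneg (by linarith)
      refine ⟨⟨by omega, by omega⟩, x, h4, h5, ?_⟩
      rw [h7, add_sub_cancel, Pool.Agent.X35.KM.hor_eq, ← Pool.Agent.X35.KM.stp_eq hP]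
      exact h6
    · show M + (((a - M).toNat : ℕ) : ℤ) = a
      rw [Int.toNat_of_nonneg (by linarith)]
      ring
  refine ⟨(Finset.finite_toSet _).subset hsub, le_trans ?_ h1⟩
  have h8 := Set.ncard_le_ncard hsub (Finset.finite_toSet _)
  rw [Set.ncard_coe_finset] at h8
  exact_mod_cast h8.trans card_image_le

end Pool.Agent.Results.MP_6ea630_nt.FirstFourMoments
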