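import Pool.Agent.X20.Tr.Dyad
import Pool.Agent.X20.Tr.Sqf
import Pool.Agent.Results.MP_6ea630_nt.ConsecutivePrimes

/-!
# The Kloosterman angles at consecutive primes of `f(⌊α n ^ c⌋)` for all integral polynomials `f`

From Mathlib: `dimH E`: the Hausdorff dimension; `⌊x⌋₊`: the integer part; `Finset.Icc 1 N`: the integers from `1` to
`N`. From helper35's `ConsecutivePrimes`: `kloosterman p a`: the sum `S(a, 1; p)`; `angle p a`: its angle, divided by `π`, in
`[0, 1]` (`1 / 2` if `p ∣ a`); `boxCount a I K`: the number of the `k < K` such that the angles of `a` at the `r` consecutive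
primes with the numbers `k, ..., k + r - 1` are in `I 0, ..., I (r - 1)`; `proportion f p S`: the proportion of the residues
`t` modulo `p` for which the angle of `f(t)` is in `S`; `boxModel f I K`: the sum over `k < K` of the product of the
proportions at the `r` primes; `signCount σ η a K`: the number of the `k < K` such that for all `i < r` the prime `p` with
the number `k + i` does not divide `a` and `σ i S(a, 1; p) > η p ^ (1 / 2)`.
-/

set_option autoImplicit false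

namespace Pool.Agent.Results.MP_6ea630_nt.PolynomialsOfSparse

open Finset Filter Polynomial
open Pool.Agent.X20.Tr
open Pool.Agent.Results.MP_6ea630_nt.ConsecutivePrimes (boxCount boxModel signCount)

/-- `n` is exceptional for `f`: for some `K ≤ n ^ δ` and some product of `r` intervals the number of the `k < K` such that the
angles of `f(n)` at the `r` consecutive primes with the numbers `k, ..., k + r - 1` are in the intervals differs from the
expected number by more than `C K ^ (1 / 2 + ε) (1 + log n) ^ (1 / 2)` -/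
def Bad (r : ℕ) (f : ℤ[X]) (ε C δ : ℝ) (n : ℕ) : Prop :=
  ∃ K : ℕ, (K : ℝ) ≤ (n : ℝ) ^ δ ∧ ∃ I : Fin r → Set ℝ, (∀ i, (I i).OrdConnected) ∧
    C * ((K : ℝ) ^ (1 / 2 + ε) * √(1 + Real.log n)) < |(boxCount (f.eval (n : ℤ)) I K : ℝ) - boxModel f I K|

/-- the integer `a` is exceptional: for some `K ≤ |a| ^ δ`, some `0 ≤ η ≤ 1 / 4` and some pattern of `r` signs `σ i` fewer than
`(1 / 4 - η) ^ r K - C K ^ (1 / 2 + ε) (1 + log |a|) ^ (1 / 2)` of the `k < K` are such that `σ i S(a, 1; p) > η p ^ (1 / 2)`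
and `p ∤ a` for the primes `p` with the numbers `k + i`, `i < r` -/
def BadSigns (r : ℕ) (ε C δ : ℝ) (a : ℤ) : Prop :=
  ∃ K : ℕ, (K : ℝ) ≤ |(a : ℝ)| ^ δ ∧ ∃ η : ℝ, 0 ≤ η ∧ η ≤ 1 / 4 ∧ ∃ σ : Fin r → ℝ, (∀ i, σ i = 1 ∨ σ i = -1) ∧
    (signCount σ η a K : ℝ) < (1 / 4 - η) ^ r * K - C * ((K : ℝ) ^ (1 / 2 + ε) * √(1 + Real.log |(a : ℝ)|))

lemma pow_mono (K : ℕ) {ε ε' : ℝ} (hε' : 0 < ε') (hε : ε' ≤ ε) : (K : ℝ) ^ (1 / 2 + ε') ≤ (K : ℝ) ^ (1 / 2 + ε) := by
  rcases Nat.eq_zero_or_pos K with rfl | hx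
  · rw [Nat.cast_zero, Real.zero_rpow (by linarith), Real.zero_rpow (by linarith)]
  · exact Real.rpow_le_rpow_of_exponent_le (by exact_mod_cast hx) (by linarith)

lemma err_mono (K : ℕ) {ε ε' C : ℝ} (hC : 0 ≤ C) (hε' : 0 < ε') (hε : ε' ≤ ε) (y : ℝ) :
    C * ((K : ℝ) ^ (1 / 2 + ε') * √y) ≤ C * ((K : ℝ) ^ (1 / 2 + ε) * √y) :=
  mul_le_mul_of_nonneg_left (mul_le_mul_of_nonneg_right (pow_mono K hε' hε) (Real.sqrt_nonneg _)) hC

lemma sqrt_log {x y : ℝ} (hy : 1 ≤ y) (hxy : x ≤ 4 * y) (hx : 1 ≤ x) :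
    √(1 + Real.log x) ≤ 2 * √(1 + Real.log y) := by
  have h1 : Real.log x ≤ Real.log 4 + Real.log y := by
    rw [← Real.log_mul (by norm_num) (by linarith)]
    exact Real.log_le_log (by linarith) hxy
  have h2 : Real.log 4 ≤ 2 := by
    have h3 : Real.log 4 = 2 * Real.log 2 := by
      rw [show (4 : ℝ) = 2 ^ 2 by norm_num, Real.log_pow]
      norm_num
    have := Real.log_two_lt_d9
    linarith
  have h4 : 0 ≤ Real.log y := Real.log_nonneg hy
  have h5 : 1 + Real.log x ≤ 2 ^ 2 * (1 + Real.log y) := by linarith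
  calc √(1 + Real.log x) ≤ √(2 ^ 2 * (1 + Real.log y)) := Real.sqrt_le_sqrt h5
    _ = 2 * √(1 + Real.log y) := by
        rw [Real.sqrt_mul (by norm_num), Real.sqrt_sq (by norm_num)]

open Classical in
/-- For every real `c > 1` there are `κ > 0` and a set `E` of real numbers of Hausdorff dimension at most `1 - κ` such
that for all `r ≥ 1` and `ε > 0` there are `C, δ > 0` such that for every real `α > 0` outside `E`:

(1) for ALL polynomials `f ∈ ℤ[T]`, all but at most `N ^ (1 - δ)` of the `n ≤ N` (`N` large) are such that `m = ⌊α n ^ c⌋` is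
not `Bad` for `f`: for every `K ≤ m ^ δ` and every product of `r` intervals, the number of the `k < K` such that the
Kloosterman angles of `f(m)` at the `r` consecutive primes with the numbers `k, ..., k + r - 1` are in the intervals differs
from the expected number by at most `C K ^ (1 / 2 + ε) (1 + log m) ^ (1 / 2)`;

(2) for ALL integers `h` and both signs `s`, all but at most `N ^ (1 - δ)` of the `n ≤ N` (`N` large) are such that
`a = h + s ⌊α n ^ c⌋` is not `BadSigns`: for every `K ≤ |a| ^ δ`, every `0 ≤ η ≤ 1 / 4` and every pattern of `r` signs `σ_i`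
there are at least `(1 / 4 - η) ^ r K - C K ^ (1 / 2 + ε) (1 + log |a|) ^ (1 / 2)` numbers `k < K` such that
`σ_i S(a, 1; p) > η p ^ (1 / 2)` and `p ∤ a` for the primes `p` with the numbers `k + i`, `i < r`. -/
theorem result (c : ℝ) (hc : 1 < c) : ∃ κ : ℝ, 0 < κ ∧ κ < 1 ∧ ∃ E : Set ℝ, dimH E ≤ ENNReal.ofReal (1 - κ) ∧
    ∀ (r : ℕ) (ε : ℝ), 1 ≤ r → 0 < ε → ∃ C δ : ℝ, 0 < C ∧ 0 < δ ∧ ∀ α : ℝ, 0 < α → α ∉ E →
      (∀ f : ℤ[X], ∃ N₀ : ℕ, ∀ N : ℕ, N₀ ≤ N →
        (((Icc 1 N).filter (fun n : ℕ => Bad r f ε C δ ⌊α * (n : ℝ) ^ c⌋₊)).card : ℝ) ≤ (N : ℝ) ^ (1 - δ)) ∧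
      (∀ h s : ℤ, (s = 1 ∨ s = -1) → ∃ N₀ : ℕ, ∀ N : ℕ, N₀ ≤ N →
        (((Icc 1 N).filter (fun n : ℕ => BadSigns r ε C δ (h + s * ((⌊α * (n : ℝ) ^ c⌋₊ : ℕ) : ℤ)))).card : ℝ) ≤
          (N : ℝ) ^ (1 - δ)) := by
  obtain ⟨κ, hκ0, hκ1, H⟩ := sparse_pow c hc
  have hin : ∀ k : ℕ, (0 : ℝ) < 1 / ((k : ℝ) + 1) := fun k => by positivity
  choose d C hd hC hA hB using fun (r k : ℕ) => ConsecutivePrimes.result (r + 1) (Nat.le_add_left 1 r)
    (1 / ((k : ℝ) + 1)) (hin k)
  have hcm := countable_polys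
  have hcount : Countable ((ℤ[X] × (ℕ × ℕ)) ⊕ (ℕ × ℕ)) := inferInstance
  obtain ⟨E, hE, hh⟩ := H ((ℤ[X] × (ℕ × ℕ)) ⊕ (ℕ × ℕ))
    (fun i a => match i with
      | Sum.inl j => 0 ≤ a ∧ Bad (j.2.1 + 1) j.1 (1 / ((j.2.2 : ℝ) + 1)) (2 * C j.2.1 j.2.2)
          (min (d j.2.1 j.2.2) (1 / 2)) a.toNat
      | Sum.inr j => BadSigns (j.1 + 1) (1 / ((j.2 : ℝ) + 1)) (2 * C j.1 j.2) (min (d j.1 j.2) (1 / 2)) a)
  refine ⟨κ, hκ0, hκ1, E, hE, fun r' ε hr' hε => ?_⟩
  obtain ⟨r, rfl⟩ : ∃ r : ℕ, r' = r + 1 := ⟨r' - 1, by omega⟩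
  obtain ⟨k, hk⟩ := exists_nat_one_div_lt hε
  have hdk : 0 < min (d r k) (1 / 2) := lt_min (hd r k) (by norm_num)
  have hdk2 : min (d r k) (1 / 2) ≤ 1 / 2 := min_le_right _ _
  have hdk3 : min (d r k) (1 / 2) ≤ d r k := min_le_left _ _
  obtain ⟨δ, hδ⟩ : ∃ δ : ℝ, δ = min κ (min (d r k) (1 / 2)) / 4 := ⟨_, rfl⟩
  have hδ0 : 0 < δ := by rw [hδ]; exact div_pos (lt_min hκ0 hdk) (by norm_num)
  have h4κ : 4 * δ ≤ κ := by
    rw [hδ]
    linarith [min_le_left κ (min (d r k) (1 / 2))]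
  have h4d : 4 * δ ≤ min (d r k) (1 / 2) := by
    rw [hδ]
    linarith [min_le_right κ (min (d r k) (1 / 2))]
  have hCk := hC r k
  refine ⟨2 * C r k, δ, by linarith, hδ0, fun α hα hαE => ⟨fun f => ?_, fun h s hs => ?_⟩⟩
  · obtain ⟨N₀, hN₀⟩ := hh α hα hαE (Sum.inl (f, (r, k))) 0 1 (Or.inl rfl) (min (d r k) (1 / 2)) (C r k) hdk hdk2
      ⟨1, fun N hN => by
        have hNb : (1 : ℝ) ≤ N := by exact_mod_cast hN
        obtain ⟨F, hF1, hF2⟩ := hA r k f N hN
        refine le_trans ?_ (hF1.trans (mul_le_mul_of_nonneg_left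
          (Real.rpow_le_rpow_of_exponent_le hNb (by linarith)) hCk.le))
        rw [Nat.cast_le, ← Set.ncard_coe_finset F, ← Set.ncard_image_of_injective (F : Set ℕ) (Nat.cast_injective (R := ℤ))]
        refine Set.ncard_le_ncard ?_ ((F.finite_toSet).image _)
        rintro a ⟨⟨h0, K, h1, I, h2, h3⟩, h5, h6⟩
        obtain ⟨n, rfl⟩ := Int.eq_ofNat_of_zero_le h0
        rw [Nat.abs_cast] at h5 h6
        rw [Int.toNat_natCast] at h1 h3
        refine ⟨n, ?_, rfl⟩
        by_contra hn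
        have hnN : n ≤ N := by exact_mod_cast h6
        have hn1 : (1 : ℝ) ≤ n := by
          have : 1 ≤ n := by omega
          exact_mod_cast this
        have hN4 : (N : ℝ) ≤ 4 * n := by
          have : N ≤ 4 * n := by omega
          exact_mod_cast this
        have h7 := hF2 n hnN (fun h => hn (by exact_mod_cast h)) K (h1.trans
          ((Real.rpow_le_rpow_of_exponent_le hn1 hdk3).trans
            (Real.rpow_le_rpow (by linarith) (by exact_mod_cast hnN) (hd r k).le))) I h2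
        refine absurd (lt_of_lt_of_le h3 h7) (not_lt.2 ?_)
        rw [show 2 * C r k * ((K : ℝ) ^ (1 / 2 + 1 / ((k : ℝ) + 1)) * √(1 + Real.log n)) =
          C r k * ((K : ℝ) ^ (1 / 2 + 1 / ((k : ℝ) + 1)) * (2 * √(1 + Real.log n))) by ring]
        exact mul_le_mul_of_nonneg_left (mul_le_mul_of_nonneg_left (sqrt_log hn1 hN4 hNb) (by positivity)) hCk.le⟩
      δ hδ0.le (by linarith) (by linarith)
    refine ⟨max N₀ 1, fun N hN => le_trans ?_ (hN₀ N ((le_max_left _ _).trans hN))⟩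
    obtain ⟨N₃, hN₃⟩ : ∃ N₃ : ℕ, N₃ = N := ⟨_, rfl⟩
    rw [Nat.cast_le]
    refine card_le_card fun n hn => ?_
    replace hn := mem_filt.1 hn
    refine mem_filt.2 ⟨hn.1, ?_⟩
    have e : (0 : ℤ) + 1 * ((⌊α * (n : ℝ) ^ c⌋₊ : ℕ) : ℤ) = ((⌊α * (n : ℝ) ^ c⌋₊ : ℕ) : ℤ) := by ring
    show 0 ≤ (0 : ℤ) + 1 * ((⌊α * (n : ℝ) ^ c⌋₊ : ℕ) : ℤ) ∧
      Bad (r + 1) f (1 / ((k : ℝ) + 1)) (2 * C r k) (min (d r k) (1 / 2)) ((0 : ℤ) + 1 * ((⌊α * (n : ℝ) ^ c⌋₊ : ℕ) : ℤ)).toNat
    rw [e, Int.toNat_natCast]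
    refine ⟨Nat.cast_nonneg _, ?_⟩
    obtain ⟨K, h1, I, h2, h3⟩ := hn.2
    refine ⟨K, ?_, I, h2, lt_of_le_of_lt (err_mono K (by linarith) (hin k) hk.le _) h3⟩
    rcases Nat.eq_zero_or_pos ⌊α * (n : ℝ) ^ c⌋₊ with hm | hm
    · rw [hm, Nat.cast_zero, Real.zero_rpow hδ0.ne'] at h1
      rw [hm, Nat.cast_zero, Real.zero_rpow hdk.ne']
      exact h1
    · exact h1.trans (Real.rpow_le_rpow_of_exponent_le (by exact_mod_cast hm) (by linarith))
  · obtain ⟨N₀, hN₀⟩ := hh α hα hαE (Sum.inr (r, k)) h s hs (min (d r k) (1 / 2)) (C r k * 2) hdk hdk2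
      ⟨1, fun N hN => by
        have hNb : (1 : ℝ) ≤ N := by exact_mod_cast hN
        obtain ⟨F, hF1, hF2⟩ := hB r k (-(N : ℤ)) (2 * N) (by omega)
        have hF3 : (F.card : ℝ) ≤ C r k * 2 * (N : ℝ) ^ (1 - min (d r k) (1 / 2)) := by
          refine hF1.trans ?_
          rw [mul_assoc]
          apply mul_le_mul_of_nonneg_left _ hCk.le
          push_cast
          calc (2 * (N : ℝ)) ^ (1 - d r k) ≤ (2 * (N : ℝ)) ^ (1 - min (d r k) (1 / 2)) :=
                Real.rpow_le_rpow_of_exponent_le (by linarith) (by linarith)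
            _ = (2 : ℝ) ^ (1 - min (d r k) (1 / 2)) * (N : ℝ) ^ (1 - min (d r k) (1 / 2)) :=
                Real.mul_rpow (by norm_num) (by linarith)
            _ ≤ 2 * (N : ℝ) ^ (1 - min (d r k) (1 / 2)) := by
                apply mul_le_mul_of_nonneg_right _ (by positivity)
                calc (2 : ℝ) ^ (1 - min (d r k) (1 / 2)) ≤ (2 : ℝ) ^ (1 : ℝ) :=
                      Real.rpow_le_rpow_of_exponent_le (by norm_num) (by linarith)
                  _ = 2 := Real.rpow_one _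
        refine le_trans ?_ hF3
        have hinj : Function.Injective (fun n : ℕ => -(N : ℤ) + (n : ℤ)) := by
          intro a b hab
          have hab' : -(N : ℤ) + (a : ℤ) = -(N : ℤ) + (b : ℤ) := hab
          omega
        rw [Nat.cast_le, ← Set.ncard_coe_finset F, ← Set.ncard_image_of_injective (F : Set ℕ) hinj]
        refine Set.ncard_le_ncard ?_ ((F.finite_toSet).image _)
        rintro a ⟨⟨K, h1, η, h2, h2', σ, h3, h4⟩, h5, h6⟩
        have ha := abs_le.1 h6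
        refine ⟨(a + N).toNat, ?_, ?_⟩
        · by_contra hn
          have ea : -(N : ℤ) + ((a + N).toNat : ℤ) = a := by omega
          have h5' : (N : ℝ) < 2 * |(a : ℝ)| := by
            rw [← Int.cast_abs]
            exact_mod_cast h5
          have h6' : |(a : ℝ)| ≤ N := by
            rw [← Int.cast_abs]
            exact_mod_cast h6
          have h7' : (1 : ℝ) ≤ |(a : ℝ)| := by
            rw [← Int.cast_abs]
            have : 1 ≤ |a| := by omega
            exact_mod_cast this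
          have h7 := hF2 (a + N).toNat (by omega) (fun h => hn (by exact_mod_cast h)) K (h1.trans
            ((Real.rpow_le_rpow_of_exponent_le h7' hdk3).trans
              (Real.rpow_le_rpow (by linarith) (by push_cast; linarith) (hd r k).le))) η h2 h2' σ h3
          rw [ea] at h7
          have h8 := lt_of_le_of_lt h7 h4
          have h9 : C r k * ((K : ℝ) ^ (1 / 2 + 1 / ((k : ℝ) + 1)) * √(1 + Real.log ((2 * N : ℕ) : ℝ))) ≤
              2 * C r k * ((K : ℝ) ^ (1 / 2 + 1 / ((k : ℝ) + 1)) * √(1 + Real.log |(a : ℝ)|)) := by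
            rw [show 2 * C r k * ((K : ℝ) ^ (1 / 2 + 1 / ((k : ℝ) + 1)) * √(1 + Real.log |(a : ℝ)|)) =
              C r k * ((K : ℝ) ^ (1 / 2 + 1 / ((k : ℝ) + 1)) * (2 * √(1 + Real.log |(a : ℝ)|))) by ring]
            exact mul_le_mul_of_nonneg_left (mul_le_mul_of_nonneg_left
              (sqrt_log h7' (by push_cast; linarith) (by push_cast; linarith)) (by positivity)) hCk.le
          linarith
        · show -(N : ℤ) + ((a + N).toNat : ℤ) = a
          omega⟩
      δ hδ0.le (by linarith) (by linarith)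
    refine ⟨N₀, fun N hN => le_trans ?_ (hN₀ N hN)⟩
    rw [Nat.cast_le]
    refine card_le_card fun n hn => ?_
    replace hn := mem_filt.1 hn
    refine mem_filt.2 ⟨hn.1, ?_⟩
    obtain ⟨K, h1, η, h2, h2', σ, h3, h4⟩ := hn.2
    refine ⟨K, ?_, η, h2, h2', σ, h3, lt_of_lt_of_le h4 (sub_le_sub_left (err_mono K (by linarith) (hin k) hk.le _) _)⟩
    obtain ⟨a, ha⟩ : ∃ a : ℤ, a = h + s * ((⌊α * (n : ℝ) ^ c⌋₊ : ℕ) : ℤ) := ⟨_, rfl⟩
    rw [← ha] at h1 ⊢
    rcases eq_or_ne a 0 with h0 | h0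
    · rw [h0, Int.cast_zero, abs_zero, Real.zero_rpow hδ0.ne'] at h1
      rw [h0, Int.cast_zero, abs_zero, Real.zero_rpow hdk.ne']
      exact h1
    · have hD : (1 : ℝ) ≤ |(a : ℝ)| := by
        rw [← Int.cast_abs]
        exact_mod_cast Int.one_le_abs h0
      exact h1.trans (Real.rpow_le_rpow_of_exponent_le hD (by linarith))

end Pool.Agent.Results.MP_6ea630_nt.PolynomialsOfSparse
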