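import Pool.Agent.X35.KM.Sgn

/-!
# Kloosterman angles of ALL integers close to `α v_n`, outside a set of `α` of small dimension: four moments and the signs
-/

set_option autoImplicit false

namespace Pool.Agent.Results.MP_6ea630_nt.WindowsAroundSequences

open Finset Polynomial

/-- The Kloosterman sum `S(a, 1; p)`. -/
noncomputable def kloosterman (p : ℕ) (a : ℤ) : ℝ :=
  ∑ x ∈ Ico 1 p, Real.cos (2 * Real.pi * ((((a : ZMod p) * (x : ZMod p) + (x : ZMod p)⁻¹).val : ℕ) : ℝ) / (p : ℝ))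

/-- The angle `θ_p(a)` in `[0, π]` with `S(a, 1; p) = 2 p ^ (1 / 2) cos θ_p(a)`. -/
noncomputable def angle (p : ℕ) (a : ℤ) : ℝ := Real.arccos (kloosterman p a / (2 * Real.sqrt p))

/-- The sum of `P (cos θ_p(a))` over the primes `p ≤ x` which do not divide `a`. -/
noncomputable def angleSum (P : ℝ[X]) (x : ℕ) (a : ℤ) : ℝ :=
  ∑ p ∈ (range (x + 1)).filter (fun p : ℕ => p.Prime ∧ ¬ (p : ℤ) ∣ a), P.eval (Real.cos (angle p a))

/-- The mean value of `P (cos u)` for the Sato-Tate measure `(2 / π) sin ^ 2 u du` on `[0, π]`. -/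
noncomputable def satoTate (P : ℝ[X]) : ℝ :=
  2 / Real.pi * ∫ u in (0 : ℝ)..Real.pi, P.eval (Real.cos u) * Real.sin u ^ 2

/-- The number of the primes `p ≤ x` not dividing `a` with `S(a, 1; p) > 0`. -/
noncomputable def posCount (x : ℕ) (a : ℤ) : ℕ :=
  {p : ℕ | p ≤ x ∧ p.Prime ∧ ¬ (p : ℤ) ∣ a ∧ 0 < kloosterman p a}.ncard

/-- The number of the primes `p ≤ x` not dividing `a` with `S(a, 1; p) < 0`. -/
noncomputable def negCount (x : ℕ) (a : ℤ) : ℕ :=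
  {p : ℕ | p ≤ x ∧ p.Prime ∧ ¬ (p : ℤ) ∣ a ∧ kloosterman p a < 0}.ncard

/-- The integers `a` such that `|a|` is in the interval with the centre `w` and the half-length `r`, with the integers `x` in the
range `|a| ^ δ ≤ x ≤ |a| ^ (1 - δ)`. -/
def pairs (δ w r : ℝ) : Set (ℤ × ℕ) :=
  {q | |(|(q.1 : ℝ)|) - w| ≤ r ∧ |(q.1 : ℝ)| ^ δ ≤ q.2 ∧ (q.2 : ℝ) ≤ |(q.1 : ℝ)| ^ (1 - δ)}

/-- Let `0 < δ ≤ 1 / 2`, `θ < 1`, and let `v_n ≥ 1` be reals with `∑ v_n ^ (-t) < ∞` for all `t > τ` (`τ ≥ 0`); for example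
`v_n = 2 ^ n` or `n!`, `τ = 0`, or `v_n = n ^ k`, `τ = 1 / k`. There is a set `E` of reals of Hausdorff dimension at most
`(1 - δ + τ) / (1 - θ)` such that for every real `α > 0` outside `E` and every `ε > 0`:

(1) for every real polynomial `P` of degree at most four, all `n ≥ n₀`, ALL integers `a` with `||a| - α v_n| ≤ v_n ^ θ` and ALL
`x` with `|a| ^ δ ≤ x ≤ |a| ^ (1 - δ)`, the sum of `P (cos θ_p(a))` over the primes `p ≤ x` not dividing `a` differs from `π(x)` times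
the Sato-Tate mean value of `P` by at most `ε π(x)`;

(2) for the same `a` and `x` and `n ≥ n₀`, at least `(1 / 4 - ε) π(x)` of the primes `p ≤ x` have `S(a, 1; p) > 0`, and at least
`(1 / 4 - ε) π(x)` of them have `S(a, 1; p) < 0`. -/
theorem result (δ τ θ : ℝ) (hδ : 0 < δ) (hδ1 : δ ≤ 1 / 2) (hτ : 0 ≤ τ) (hθ : θ < 1) (v : ℕ → ℝ) (hv1 : ∀ n, 1 ≤ v n)
    (hv : ∀ t : ℝ, τ < t → Summable (fun n => v n ^ (-t))) :
    ∃ E : Set ℝ, dimH E ≤ ENNReal.ofReal ((1 - δ + τ) / (1 - θ)) ∧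
      ∀ α : ℝ, 0 < α → α ∉ E → ∀ ε : ℝ, 0 < ε →
        (∀ P : ℝ[X], P.natDegree ≤ 4 → ∃ n₀ : ℕ, ∀ n : ℕ, n₀ ≤ n → ∀ q ∈ pairs δ (α * v n) (v n ^ θ),
          |angleSum P q.2 q.1 - satoTate P * Nat.primeCounting q.2| ≤ ε * Nat.primeCounting q.2) ∧
        (∃ n₀ : ℕ, ∀ n : ℕ, n₀ ≤ n → ∀ q ∈ pairs δ (α * v n) (v n ^ θ),
          (1 / 4 - ε) * Nat.primeCounting q.2 ≤ posCount q.2 q.1 ∧
          (1 / 4 - ε) * Nat.primeCounting q.2 ≤ negCount q.2 q.1) := by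
  classical
  obtain ⟨E, hE, h⟩ := Pool.Agent.X35.KM.windows hδ (by linarith) hτ hθ hv1 hv
  refine ⟨E, hE, fun α hα hαE ε hε => ⟨fun P hP => ?_, ?_⟩⟩
  · obtain ⟨n₀, hn⟩ := h α hα hαE P hP ε hε
    refine ⟨n₀, fun n hn1 q hq => ?_⟩
    have h1 := hn n hn1 q.1 hq.1 q.2 hq.2.1 hq.2.2
    rw [Pool.Agent.X35.KM.hor_eq, ← Pool.Agent.X35.KM.stp_eq hP] at h1
    exact h1
  · set r : ℝ := Real.sqrt (1 / 2) with hr
    have hr0 : 0 ≤ r := Real.sqrt_nonneg _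
    have hr2 : r ^ 2 = 1 / 2 := Real.sq_sqrt (by norm_num)
    obtain ⟨n₁, hn₁⟩ := h α hα hαE (Pool.Agent.X35.KM.mino r) (Pool.Agent.X35.KM.mino_deg r) ε hε
    obtain ⟨n₂, hn₂⟩ := h α hα hαE (Pool.Agent.X35.KM.minn r) (Pool.Agent.X35.KM.minn_deg r) ε hε
    refine ⟨max n₁ n₂, fun n hn q hq => ⟨?_, ?_⟩⟩
    · have h1 := hn₁ n ((le_max_left _ _).trans hn) q.1 hq.1 q.2 hq.2.1 hq.2.2
      rw [Pool.Agent.X35.KM.mino_stp] at h1
      have h2 := (abs_le.1 h1).1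
      have h3 := Pool.Agent.X35.KM.hor_mino_le hr0 hr2 q.2 q.1
      have h4 : (posCount q.2 q.1 : ℝ) = (((range (q.2 + 1)).filter (fun p : ℕ => p.Prime ∧ ¬ (p : ℤ) ∣ q.1 ∧
          0 < Pool.Agent.X35.KM.kls p q.1)).card : ℝ) := by
        unfold posCount
        rw [← Set.ncard_coe_finset]
        congr 2
        ext p
        rw [Set.mem_setOf_eq, mem_coe, mem_filter, mem_range, Nat.lt_succ_iff]
        rfl
      rw [h4]
      linarith
    · have h1 := hn₂ n ((le_max_right _ _).trans hn) q.1 hq.1 q.2 hq.2.1 hq.2.2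
      rw [Pool.Agent.X35.KM.minn_stp] at h1
      have h2 := (abs_le.1 h1).1
      have h3 := Pool.Agent.X35.KM.hor_minn_le hr0 hr2 q.2 q.1
      have h4 : (negCount q.2 q.1 : ℝ) = (((range (q.2 + 1)).filter (fun p : ℕ => p.Prime ∧ ¬ (p : ℤ) ∣ q.1 ∧
          Pool.Agent.X35.KM.kls p q.1 < 0)).card : ℝ) := by
        unfold negCount
        rw [← Set.ncard_coe_finset]
        congr 2
        ext p
        rw [Set.mem_setOf_eq, mem_coe, mem_filter, mem_range, Nat.lt_succ_iff]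
        rfl
      rw [h4]
      linarith

end Pool.Agent.Results.MP_6ea630_nt.WindowsAroundSequences
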